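import Pool.Agent.H9.Rel

set_option autoImplicit false

namespace Pool.Agent.Results.MP_33f3d1_co.Counter

open Pool.Agent.H9.Rel

theorem result : ∃ (X : Type) (_ : Fintype X) (_ : PartialOrder X) (Y₁ Y₂ : Set X),
    IsMinimalRelatingRetract Y₁ ∧ IsMinimalRelatingRetract Y₂ ∧ IsEmpty (Y₁ ≃o Y₂) :=
  ⟨P5, inferInstance, inferInstance, _, _, m1, m2, noiso⟩

end Pool.Agent.Results.MP_33f3d1_co.Counter
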